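import Pool.Agent.Helper286.Unst.P4

/-! A metric space with a homotopically unstable point that satisfies neither (H) nor (R). -/

namespace Pool.Agent.Results.MP_17e614_gt.Disproof

open Pool.Agent.Helper286.Unst

/-- There are a metric space M and a point a of M such that a is homotopically unstable in M
although both condition (H) and condition (R) fail for the pair (M, a). -/
theorem result : ∃ (M : Type) (_ : MetricSpace M) (a : M),
    HomotopicallyUnstable M a ∧ ¬ CondH M a ∧ ¬ CondR M a :=
  final

end Pool.Agent.Results.MP_17e614_gt.Disproof
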