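import Mathlib
import Pool.Agent.Helper789.HU18

/-!
# Homotopically unstable points without local compactness

For every metric space `M` and every point `a`, condition (H) is equivalent to (R) and implies
instability. We prove the converse when `a` has a neighbourhood `N` such that `N` or `N \ {a}`
belongs to one of the following classes: finite covering dimension, countable-dimensional spaces,
spaces with property C, σ-compact spaces, locally compact spaces, spaces with a perfect map to the
union of a σ-compact subspace and a subspace with property C, absolute neighbourhood retracts.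

For every metric space we also show that (H) is equivalent to a stronger form of instability
(points different from `a` never meet `a` during the homotopies), and that (H) holds when the final
maps of the homotopies can be chosen to miss a neighbourhood of `a`.

Sketch. Small moves `h_m` with labels `m` are composed one after the other over a base space. The
labels must be larger than thresholds which depend on the labels used before; property C, a
σ-compact exhaustion, and perfect maps provide locally constant labels. In this way maps and
homotopies are pushed off `a`. Applied over `(N \ {a}) × (0,1)` this turns the homotopies `h_m` into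
homotopies which keep `M \ {a}` invariant, and these can be composed without any threshold. For an
ANR the base is first mapped to a simplicial space of weights, which has property C.
-/

namespace Pool.Agent.Results.MP_17e614_gt.Tame

open Set Topology unitInterval

universe u

/-! ### The notions of the problem -/

section notions

variable {M : Type u} [MetricSpace M]

/-- The point `a` is homotopically unstable in `M`. -/
def Unstable (a : M) : Prop :=
  ∀ ε : ℝ, 0 < ε → ∃ h : M × I → M, Continuous h ∧ ∀ x t, h (x, 0) = x ∧ dist x (h (x, t)) < ε ∧ h (x, 1) ≠ a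

/-- Condition (H): a homotopy of the identity which is off `a` at every positive time. -/
def CondH (a : M) : Prop :=
  ∃ f : M × I → M, Continuous f ∧ (∀ x, f (x, 0) = x) ∧ ∀ x t, 0 < t → f (x, t) ≠ a

/-- Condition (R): a retraction `r` of `M × I` onto `M × {0}` with `r⁻¹ (a, 0) = {(a, 0)}`. -/
def CondR (a : M) : Prop :=
  ∃ r : M × I → M × I, Continuous r ∧ (∀ p, (r p).2 = 0) ∧ (∀ x, r (x, 0) = (x, 0)) ∧ r ⁻¹' {(a, 0)} = {(a, 0)}

/-- Instability by homotopies during which the points different from `a` never meet `a`. -/
def StronglyUnstable (a : M) : Prop :=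
  ∀ ε : ℝ, 0 < ε → ∃ h : M × I → M, Continuous h ∧
    ∀ x t, h (x, 0) = x ∧ dist x (h (x, t)) < ε ∧ h (x, 1) ≠ a ∧ (x ≠ a → h (x, t) ≠ a)

/-- Instability by homotopies whose final map misses a whole neighbourhood of `a`. -/
def UniformlyUnstable (a : M) : Prop :=
  ∀ ε : ℝ, 0 < ε → ∃ h : M × I → M, Continuous h ∧ (∀ x t, h (x, 0) = x ∧ dist x (h (x, t)) < ε) ∧
    ∃ δ > 0, ∀ x, δ ≤ dist (h (x, 1)) a

end notions

/-! ### The classes of spaces -/

/-- Covering dimension at most `n`: every open cover has an open refinement that is a cover and in
which every point lies in at most `n + 1` members. -/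
def CovDimLE (X : Type u) [TopologicalSpace X] (n : ℕ) : Prop :=
  ∀ U : Set (Set X), (∀ u ∈ U, IsOpen u) → ⋃₀ U = univ →
    ∃ V : Set (Set X), (∀ v ∈ V, IsOpen v ∧ ∃ u ∈ U, v ⊆ u) ∧ ⋃₀ V = univ ∧
      ∀ x, {v | v ∈ V ∧ x ∈ v}.encard ≤ n + 1

/-- Countable-dimensional: a countable union of subspaces of covering dimension at most `0`. -/
def CountableDim (X : Type u) [TopologicalSpace X] : Prop :=
  ∃ Y : ℕ → Set X, (⋃ n, Y n) = univ ∧ ∀ n, CovDimLE (Y n) 0

/-- Property C of Addis and Gresham: for all open covers `U 0, U 1, ...` there are families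
`V 0, V 1, ...` of pairwise disjoint open sets such that every member of `V n` is contained in a
member of `U n`, and the members of all the `V n` together cover the space. -/
def PropertyC (X : Type u) [TopologicalSpace X] : Prop :=
  ∀ U : ℕ → Set (Set X), (∀ n, (∀ u ∈ U n, IsOpen u) ∧ ⋃₀ U n = univ) →
    ∃ V : ℕ → Set (Set X), (∀ n, (∀ v ∈ V n, IsOpen v ∧ ∃ u ∈ U n, v ⊆ u) ∧ (V n).PairwiseDisjoint id) ∧
      (⋃ n, ⋃₀ V n) = univ

/-- `X` is the union of countably many compact subsets and one subspace with property C. -/
def SigmaC (X : Type u) [TopologicalSpace X] : Prop :=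
  ∃ (K : ℕ → Set X) (B : Set X), (∀ n, IsCompact (K n)) ∧ PropertyC B ∧ (⋃ n, K n) ∪ B = univ

/-- `X` has a proper (perfect) map to a metric space which is the union of countably many compact
subsets and one subspace with property C. -/
def PerfectSigmaC (X : Type u) [TopologicalSpace X] : Prop :=
  ∃ (Z : Type u) (_ : MetricSpace Z) (κ : X → Z), IsProperMap κ ∧ SigmaC Z

/-- Absolute neighbourhood retract: the metric space `X` is a retract of a neighbourhood in every
metric space which contains it as a closed subspace. -/
def IsANR (X : Type u) [MetricSpace X] : Prop :=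
  ∀ (Y : Type u) [MetricSpace Y] (e : X → Y), IsClosedEmbedding e →
    ∃ (O : Set Y) (r : O → X), IsOpen O ∧ range e ⊆ O ∧ Continuous r ∧ ∀ x (hx : e x ∈ O), r ⟨e x, hx⟩ = x

/-- The spaces covered by the theorem. -/
def Nice (X : Type u) [MetricSpace X] : Prop :=
  (∃ n, CovDimLE X n) ∨ CountableDim X ∨ PropertyC X ∨ SigmaCompactSpace X ∨ LocallyCompactSpace X ∨
    PerfectSigmaC X ∨ IsANR X

open Pool.Agent.Helper789 in
lemma Nice.cases {X : Type u} [MetricSpace X] (h : Nice X) : HU.Tame X ∨ HU.IsANR X := by
  rcases h with ⟨n, h⟩ | h | h | h | h | h | h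
  · exact Or.inl (HU.CovDimLE.propertyC (n := n) h).sigmaC.tame
  · exact Or.inl (HU.CountableDim.propertyC h).sigmaC.tame
  · exact Or.inl (HU.PropertyC.sigmaC h).tame
  · exact Or.inl HU.SigmaC.of_isSigmaCompact.tame
  · exact Or.inl (HU.tame_of_locallyCompact X)
  · exact Or.inl h
  · exact Or.inr h

open Pool.Agent.Helper789 in
/-- The main result. -/
theorem result (M : Type u) [MetricSpace M] (a : M) :
    (CondH a ↔ CondR a) ∧ (CondH a → Unstable a) ∧ (CondH a ↔ StronglyUnstable a) ∧
    (UniformlyUnstable a → CondH a) ∧
    ((∃ N ∈ 𝓝 a, Nice ↥N ∨ Nice ↥(N \ {a})) → (Unstable a ↔ CondH a) ∧ (Unstable a ↔ CondR a)) := by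
  have hHR : CondH a ↔ CondR a := HU.condH_iff_condR a
  have hHU : CondH a → Unstable a := HU.CondH.unstable
  refine ⟨hHR, hHU, HU.condH_iff_stronglyUnstable a, HU.UniformlyUnstable.condH, ?_⟩
  rintro ⟨N, hN, h⟩
  have key : Unstable a → CondH a := by
    intro ha
    rcases h with h | h
    · rcases h.cases with h1 | h1
      · exact HU.Unstable.condH_of_tame ha hN h1
      · exact HU.Unstable.condH_of_anr ha hN h1
    · rcases h.cases with h1 | h1
      · exact HU.Unstable.condH_of_punctured_tame ha hN h1
      · exact HU.Unstable.condH_of_punctured_anr ha hN h1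
  exact ⟨⟨key, hHU⟩, ⟨fun h => hHR.1 (key h), fun h => hHU (hHR.2 h)⟩⟩

end Pool.Agent.Results.MP_17e614_gt.Tame
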